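import Mathlib

/-!
FAT colourings: for every k >= 2 and every rational 0 < alpha <= 1/(k-1) there is a connected graph whose
FAT chromatic number is k and which has a FAT k-colouring with parameter alpha.
-/

namespace Pool.Agent.Results.MP_2d49c6_co.FATPrescribed

open Finset Polynomial

/-- the number of neighbours of `v` in the colour class `i` of `c` -/
noncomputable def nbrs {V : Type} (G : SimpleGraph V) {k : ℕ} (c : V → Fin k) (v : V) (i : Fin k) : ℕ :=
  Set.ncard {w : V | G.Adj v w ∧ c w = i}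

/-- the degree of `v` -/
noncomputable def deg {V : Type} (G : SimpleGraph V) (v : V) : ℕ :=
  Set.ncard {w : V | G.Adj v w}

/-- `c` is a FAT `k`-colouring of `G` with parameter `α` -/
def IsFAT {V : Type} (G : SimpleGraph V) (k : ℕ) (α : ℝ) (c : V → Fin k) : Prop :=
  Function.Surjective c ∧ 0 ≤ α ∧ α ≤ 1 ∧
    (∀ (v : V) (i : Fin k), c v ≠ i → (nbrs G c v i : ℝ) = α * (deg G v : ℝ)) ∧
    (∀ v : V, (nbrs G c v (c v) : ℝ) = (1 - ((k : ℝ) - 1) * α) * (deg G v : ℝ))

/-- the FAT chromatic number of `G` is `k` -/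
def FATChromaticNumberEq {V : Type} (G : SimpleGraph V) (k : ℕ) : Prop :=
  IsGreatest {m : ℕ | ∃ (α : ℝ) (c : V → Fin m), IsFAT G m α c} k

section graph

variable {k p : ℕ}

/-- the graph on `Fin k × ZMod p` -/
def gr (k : ℕ) (A B : Finset (ZMod p)) (hA : ∀ x ∈ A, -x ∈ A) (hB : ∀ x ∈ B, -x ∈ B)
    (h0 : (0 : ZMod p) ∉ B) : SimpleGraph (Fin k × ZMod p) where
  Adj u v := (u.1 ≠ v.1 ∧ v.2 - u.2 ∈ A) ∨ (u.1 = v.1 ∧ v.2 - u.2 ∈ B)
  symm := ⟨by
    intro u v h
    rcases h with ⟨h1, h2⟩ | ⟨h1, h2⟩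
    · exact Or.inl ⟨h1.symm, by have := hA _ h2; rwa [neg_sub] at this⟩
    · exact Or.inr ⟨h1.symm, by have := hB _ h2; rwa [neg_sub] at this⟩⟩
  loopless := ⟨by
    intro u h
    rcases h with ⟨h1, _⟩ | ⟨_, h2⟩
    · exact h1 rfl
    · exact h0 (by simpa using h2)⟩

end graph

/-- a rational combination of the powers of a primitive p-th root of unity vanishes only for
constant coefficients -/
theorem const_of_sum_eq_zero {p : ℕ} [Fact p.Prime] {K : Type*} [Field K] [CharZero K]
    {ζ : K} (hζ : IsPrimitiveRoot ζ p) (h : ZMod p → ℚ)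
    (hs : ∑ x : ZMod p, (h x : K) * ζ ^ (x.val) = 0) : ∀ x y, h x = h y := by
  classical
  have hp : p.Prime := Fact.out
  have hp0 : 0 < p := hp.pos
  have : NeZero p := ⟨hp.ne_zero⟩
  set P : ℚ[X] := ∑ x : ZMod p, C (h x) * X ^ (x.val) with hP
  have hcoeff : ∀ x : ZMod p, P.coeff x.val = h x := by
    intro x
    rw [hP, finsetSum_coeff]
    rw [Finset.sum_eq_single x]
    · simp
    · intro b _ hb
      rw [coeff_C_mul, coeff_X_pow, if_neg, mul_zero]
      intro he
      exact hb (ZMod.val_injective p he.symm)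
    · simp
  have haeval : aeval ζ P = 0 := by
    rw [hP, map_sum]
    simpa using hs
  have hdegP : P.degree < p := by
    rw [hP]
    refine lt_of_le_of_lt (degree_sum_le _ _) ?_
    rw [Finset.sup_lt_iff (by exact_mod_cast WithBot.bot_lt_coe p)]
    intro x _
    refine lt_of_le_of_lt (degree_C_mul_X_pow_le _ _) ?_
    exact_mod_cast ZMod.val_lt x
  have hmin : minpoly ℚ ζ = cyclotomic p ℚ := (cyclotomic_eq_minpoly_rat hζ hp0).symm
  set c := P.coeff (p - 1) with hc
  have hΦ : cyclotomic p ℚ = ∑ i ∈ Finset.range p, X ^ i := cyclotomic_prime ℚ p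
  have hΦc : ∀ i < p, (cyclotomic p ℚ).coeff i = 1 := by
    intro i hi
    rw [hΦ, finsetSum_coeff, Finset.sum_eq_single i]
    · simp
    · intro b _ hb
      rw [coeff_X_pow, if_neg (Ne.symm hb)]
    · intro h; exact absurd (Finset.mem_range.2 hi) h
  have hΦd : (cyclotomic p ℚ).degree = ((p - 1 : ℕ) : WithBot ℕ) := by
    rw [degree_cyclotomic, Nat.totient_prime hp]
  set Q : ℚ[X] := P - C c * cyclotomic p ℚ with hQ
  have hQ0 : Q = 0 := by
    by_contra hne
    have h1 : aeval ζ Q = 0 := by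
      rw [hQ, map_sub, map_mul, haeval, ← hmin, minpoly.aeval]
      simp
    have h2 := minpoly.degree_le_of_ne_zero ℚ ζ hne h1
    rw [hmin, hΦd] at h2
    have h3 : Q.coeff (p - 1) = 0 := by
      rw [hQ, coeff_sub, coeff_C_mul, hΦc (p - 1) (by omega)]
      simp [hc]
    have h4 : Q.degree < p := by
      rw [hQ]
      refine lt_of_le_of_lt (degree_sub_le _ _) (max_lt hdegP ?_)
      refine lt_of_le_of_lt ((degree_mul_le _ _).trans (add_le_add degree_C_le le_rfl)) ?_
      rw [hΦd, zero_add]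
      exact_mod_cast (by omega : p - 1 < p)
    have h5 : Q.natDegree < p := (natDegree_lt_iff_degree_lt hne).2 h4
    have h6 : p - 1 ≤ Q.natDegree := by
      rw [degree_eq_natDegree hne] at h2
      exact_mod_cast h2
    have h7 : Q.natDegree = p - 1 := by omega
    have h8 : Q.leadingCoeff = 0 := by rw [leadingCoeff, h7, h3]
    exact hne (leadingCoeff_eq_zero.1 h8)
  have hPc : ∀ x : ZMod p, h x = c := by
    intro x
    have : P = C c * cyclotomic p ℚ := by
      have := hQ0
      rw [hQ] at this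
      exact sub_eq_zero.1 this
    rw [← hcoeff x, this, coeff_C_mul, hΦc _ (ZMod.val_lt x), mul_one]
  intro x y
  rw [hPc x, hPc y]


section transform

variable {p : ℕ} [Fact p.Prime] {ζ : ℂ}

theorem zpow_add (hζ : IsPrimitiveRoot ζ p) (x y : ZMod p) :
    ζ ^ (x + y).val = ζ ^ x.val * ζ ^ y.val := by
  have : NeZero p := ⟨(Fact.out : p.Prime).ne_zero⟩
  rw [ZMod.val_add, ← pow_add]
  have h := pow_mod_orderOf ζ (x.val + y.val)
  rwa [← hζ.eq_orderOf] at h

/-- the transform of a rational function -/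
noncomputable def T (ζ : ℂ) (h : ZMod p → ℚ) : ℂ := 
  ∑ x : ZMod p, (h x : ℂ) * ζ ^ x.val

theorem T_shift (hζ : IsPrimitiveRoot ζ p) (h : ZMod p → ℚ) (s : ZMod p) :
    T ζ (fun x => h (x + s)) = ζ ^ (-s).val * T ζ h := by
  have : NeZero p := ⟨(Fact.out : p.Prime).ne_zero⟩
  unfold T
  rw [Finset.mul_sum]
  refine Fintype.sum_equiv (Equiv.addRight s) _ _ fun x => ?_
  have h1 : ζ ^ x.val = ζ ^ (x + s).val * ζ ^ (-s).val := by
    rw [← zpow_add hζ]
    congr 2
    ring
  simp only [Equiv.coe_addRight]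
  rw [h1]
  ring

/-- the sum of the roots of unity over a set -/
noncomputable def sg (ζ : ℂ) (S : Finset (ZMod p)) : ℂ := ∑ s ∈ S, ζ ^ s.val

theorem T_conv (hζ : IsPrimitiveRoot ζ p) (h : ZMod p → ℚ) (S : Finset (ZMod p))
    (hS : ∀ x ∈ S, -x ∈ S) :
    T ζ (fun x => ∑ s ∈ S, h (x + s)) = sg ζ S * T ζ h := by
  have : NeZero p := ⟨(Fact.out : p.Prime).ne_zero⟩
  have h1 : T ζ (fun x => ∑ s ∈ S, h (x + s)) = ∑ s ∈ S, T ζ (fun x => h (x + s)) := by
    unfold T
    rw [Finset.sum_comm]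
    refine Finset.sum_congr rfl fun x _ => ?_
    rw [← Finset.sum_mul]
    push_cast
    rfl
  rw [h1, sg, Finset.sum_mul]
  simp_rw [T_shift hζ]
  exact Finset.sum_nbij' (fun s => -s) (fun s => -s) hS hS (by simp) (by simp) (by simp)

theorem T_ind (S : Finset (ZMod p)) : 
    T ζ (fun x => if x ∈ S then 1 else 0) = sg ζ S := by
  have : NeZero p := ⟨(Fact.out : p.Prime).ne_zero⟩
  unfold T sg
  rw [← Finset.sum_filter_add_sum_filter_not Finset.univ (· ∈ S)]
  rw [Finset.sum_congr rfl (g := fun x => ζ ^ x.val), Finset.sum_eq_zero (s := Finset.univ.filter (· ∉ S))]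
  · rw [add_zero]
    refine Finset.sum_congr ?_ fun _ _ => rfl
    ext x; simp
  · intro x hx
    rw [Finset.mem_filter] at hx
    simp [hx.2]
  · intro x hx
    rw [Finset.mem_filter] at hx
    simp [hx.2]

theorem T_add (h g : ZMod p → ℚ) : T ζ (fun x => h x + g x) = T ζ h + T ζ g := by
  have : NeZero p := ⟨(Fact.out : p.Prime).ne_zero⟩
  unfold T
  rw [← Finset.sum_add_distrib]
  refine Finset.sum_congr rfl fun x _ => ?_
  push_cast; ring

theorem T_smul (q : ℚ) (h : ZMod p → ℚ) : T ζ (fun x => q * h x) = q * T ζ h := by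
  have : NeZero p := ⟨(Fact.out : p.Prime).ne_zero⟩
  unfold T
  rw [Finset.mul_sum]
  refine Finset.sum_congr rfl fun x _ => ?_
  push_cast; ring

theorem T_zero_const (hζ : IsPrimitiveRoot ζ p) {h : ZMod p → ℚ} (hT : T ζ h = 0) :
    ∀ x y, h x = h y := by
  have : NeZero p := ⟨(Fact.out : p.Prime).ne_zero⟩
  exact const_of_sum_eq_zero hζ h hT

theorem sg_ne (hζ : IsPrimitiveRoot ζ p) (A B : Finset (ZMod p)) (q θ : ℚ) (hq : q ≠ 0)
    (u w : ZMod p) (hu0 : u ≠ 0) (hw0 : w ≠ 0) (huA : u ∈ A) (huB : u ∉ B) (hwA : w ∉ A)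
    (hwB : w ∉ B) : sg ζ B + q * sg ζ A - θ ≠ 0 := by
  intro hz
  have : NeZero p := ⟨(Fact.out : p.Prime).ne_zero⟩
  set g : ZMod p → ℚ := fun x => ((if x ∈ B then 1 else 0) + q * (if x ∈ A then 1 else 0)) +
    (-θ) * (if x ∈ ({0} : Finset (ZMod p)) then 1 else 0) with hg
  have h1 : T ζ g = 0 := by
    rw [hg, T_add (fun x => (if x ∈ B then (1:ℚ) else 0) + q * (if x ∈ A then 1 else 0)) 
      (fun x => (-θ) * (if x ∈ ({0} : Finset (ZMod p)) then 1 else 0)),
      T_add (fun x => (if x ∈ B then (1:ℚ) else 0)) (fun x => q * (if x ∈ A then 1 else 0)),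
      T_smul, T_smul, T_ind, T_ind, T_ind]
    have : sg ζ ({0} : Finset (ZMod p)) = 1 := by simp [sg]
    rw [this]
    push_cast
    linear_combination hz
  have h2 := T_zero_const hζ h1 u w
  simp [hg, huA, huB, hwA, hwB, hu0, hw0] at h2
  exact hq h2

end transform

section main

variable {k p : ℕ} [Fact p.Prime] {A B : Finset (ZMod p)} (hA : ∀ x ∈ A, -x ∈ A)
  (hB : ∀ x ∈ B, -x ∈ B) (h0 : (0 : ZMod p) ∉ B)

open Classical in
theorem sum_nbrs (i : Fin k) (x : ZMod p) (f : Fin k × ZMod p → ℚ) :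
    ∑ w, (if (gr k A B hA hB h0).Adj (i, x) w then f w else 0) =
      ∑ j, (if j = i then ∑ s ∈ B, f (j, x + s) else ∑ s ∈ A, f (j, x + s)) := by
  rw [Fintype.sum_prod_type]
  refine Finset.sum_congr rfl fun j _ => ?_
  have key : ∀ S : Finset (ZMod p), ∑ y, (if y - x ∈ S then f (j, y) else 0) = 
      ∑ s ∈ S, f (j, x + s) := by
    intro S
    rw [← Finset.sum_filter]
    refine Finset.sum_nbij' (fun y => y - x) (fun s => x + s) ?_ ?_ ?_ ?_ ?_
    · intro y hy; simpa using hy
    · intro s hs; simpa using hs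
    · intro y _; ring
    · intro s _; ring
    · intro y _; simp
  by_cases hji : j = i
  · subst hji
    rw [if_pos rfl, ← key B]
    refine Finset.sum_congr rfl fun y _ => ?_
    simp [gr]
  · rw [if_neg hji, ← key A]
    refine Finset.sum_congr rfl fun y _ => ?_
    simp [gr, Ne.symm hji]


open Classical in
theorem deg_eq (hk : 1 ≤ k) (v : Fin k × ZMod p) :
    deg (gr k A B hA hB h0) v = B.card + (k - 1) * A.card := by
  have h := sum_nbrs hA hB h0 v.1 v.2 (fun _ => 1)
  have h1 : (deg (gr k A B hA hB h0) v : ℚ) = 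
      ∑ w, (if (gr k A B hA hB h0).Adj (v.1, v.2) w then (1:ℚ) else 0) := by
    rw [deg, Set.ncard_eq_toFinset_card', Finset.sum_boole]
    congr 2
    ext w; simp
  rw [h] at h1
  have h2 : (∑ j : Fin k, (if j = v.1 then ∑ s ∈ B, (1:ℚ) else ∑ s ∈ A, (1:ℚ))) = 
      B.card + (k - 1) * A.card := by
    rw [Finset.sum_ite, Finset.filter_eq', if_pos (Finset.mem_univ _), Finset.filter_ne']
    simp only [Finset.sum_const, Finset.card_singleton, one_smul, nsmul_eq_mul, mul_one,
      Finset.card_erase_of_mem (Finset.mem_univ _), Finset.card_univ, Fintype.card_fin]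
    rw [Nat.cast_sub hk]; push_cast; ring
  rw [h2] at h1
  have : ((B.card + (k - 1) * A.card : ℕ) : ℚ) = B.card + (k - 1) * A.card := by
    push_cast [Nat.cast_sub hk]; ring
  rw [← this] at h1
  exact_mod_cast h1

/-- in a FAT colouring with at least two classes the neighbour counts are two natural numbers -/
theorem fat_counts {V : Type} (G : SimpleGraph V) {m : ℕ} (hm : 2 ≤ m) {α : ℝ} {c : V → Fin m} 
    (hc : IsFAT G m α c) {D : ℕ} (hD : ∀ v, deg G v = D) (v₀ : V) :
    ∃ a b : ℕ, ∀ v t, nbrs G c v t = if t = c v then b else a := by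
  obtain ⟨hs, _, _, h1, h2⟩ := hc
  have : ∃ t, t ≠ c v₀ := by
    have : Nontrivial (Fin m) := Fin.nontrivial_iff_two_le.2 hm
    exact exists_ne _
  obtain ⟨t₀, ht₀⟩ := this
  refine ⟨nbrs G c v₀ t₀, nbrs G c v₀ (c v₀), fun v t => ?_⟩
  split_ifs with ht
  · subst ht
    have e1 := h2 v
    have e2 := h2 v₀
    rw [hD] at e1 e2
    have : (nbrs G c v (c v) : ℝ) = nbrs G c v₀ (c v₀) := by rw [e1, e2]
    exact_mod_cast this
  · have e1 := h1 v t (Ne.symm ht)
    have e2 := h1 v₀ t₀ (Ne.symm ht₀)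
    rw [hD] at e1 e2
    have : (nbrs G c v t : ℝ) = nbrs G c v₀ t₀ := by rw [e1, e2]
    exact_mod_cast this

open Classical in
theorem sum_by_colour {V : Type} [Fintype V] (G : SimpleGraph V) {m : ℕ} (c : V → Fin m)
    (φ : Fin m → ℚ) (v : V) :
    ∑ w, (if G.Adj v w then φ (c w) else 0) = ∑ t, φ t * nbrs G c v t := by
  have h1 : ∀ t, (nbrs G c v t : ℚ) = ∑ w, (if G.Adj v w ∧ c w = t then (1:ℚ) else 0) := by
    intro t
    rw [nbrs, Set.ncard_eq_toFinset_card', Finset.sum_boole]
    congr 2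
    ext w; simp
  simp_rw [h1, Finset.mul_sum]
  rw [Finset.sum_comm]
  refine Finset.sum_congr rfl fun w _ => ?_
  by_cases hw : G.Adj v w
  · simp [hw]
  · simp [hw]

open Classical in
/-- the upper bound: any FAT colouring of the graph has at most `k` classes -/
theorem upper (hk : 1 ≤ k) {ζ : ℂ} (hζ : IsPrimitiveRoot ζ p) (u w : ZMod p) (hu0 : u ≠ 0) 
    (hw0 : w ≠ 0) (huA : u ∈ A) (huB : u ∉ B) (hwA : w ∉ A) (hwB : w ∉ B) (hk2 : 2 ≤ k)
    {m : ℕ} {α : ℝ} {c : Fin k × ZMod p → Fin m} (hc : IsFAT (gr k A B hA hB h0) m α c) :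
    m ≤ k := by
  by_contra hlt
  push Not at hlt
  have hm : 2 ≤ m := by omega
  set G := gr k A B hA hB h0 with hG
  obtain ⟨a, b, hab⟩ := fat_counts G hm hc (deg_eq hA hB h0 hk) (⟨0, by omega⟩, 0)
  set θ : ℚ := (b : ℚ) - a with hθ
  -- the eigenvalue equation
  have heig : ∀ φ : Fin m → ℚ, ∑ t, φ t = 0 → ∀ v, 
      ∑ w, (if G.Adj v w then φ (c w) else 0) = θ * φ (c v) := by
    intro φ hφ v
    rw [sum_by_colour]
    have : ∀ t, φ t * (nbrs G c v t : ℚ) = a * φ t + (if t = c v then θ * φ t else 0) := by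
      intro t
      rw [hab v t]
      split_ifs with ht
      · rw [hθ]; ring
      · ring
    simp_rw [this]
    rw [Finset.sum_add_distrib, ← Finset.mul_sum, hφ]
    simp
  -- colours are constant on fibres
  have hconst : ∀ φ : Fin m → ℚ, ∑ t, φ t = 0 → ∀ i x y, φ (c (i, x)) = φ (c (i, y)) := by
    intro φ hφ i
    set f : Fin k × ZMod p → ℚ := fun v => φ (c v) with hf
    set F : Fin k → ℂ := fun i => T ζ (fun x => f (i, x)) with hF
    have hEq : ∀ i, (sg ζ B - sg ζ A - θ) * F i = - (sg ζ A * ∑ j, F j) := by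
      intro i
      have h1 : ∀ x, (∑ j, (if j = i then ∑ s ∈ B, f (j, x + s) else ∑ s ∈ A, f (j, x + s))) = 
          θ * f (i, x) := by
        intro x
        rw [← sum_nbrs hA hB h0 i x f]
        exact heig φ hφ (i, x)
      have h2 : T ζ (fun x => ∑ j, (if j = i then ∑ s ∈ B, f (j, x + s) 
          else ∑ s ∈ A, f (j, x + s))) = θ * F i := by
        rw [hF]
        simp only
        rw [← T_smul]
        congr 1
        ext x
        exact h1 x
      have h3 : T ζ (fun x => ∑ j, (if j = i then ∑ s ∈ B, f (j, x + s) 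
          else ∑ s ∈ A, f (j, x + s))) = ∑ j, (if j = i then sg ζ B * F j else sg ζ A * F j) := by
        have h4 : T ζ (fun x => ∑ j, (if j = i then ∑ s ∈ B, f (j, x + s) 
          else ∑ s ∈ A, f (j, x + s))) = ∑ j, T ζ (fun x => (if j = i then ∑ s ∈ B, f (j, x + s) 
          else ∑ s ∈ A, f (j, x + s))) := by
          unfold T
          rw [Finset.sum_comm]
          refine Finset.sum_congr rfl fun x _ => ?_
          rw [← Finset.sum_mul]
          push_cast
          rfl
        rw [h4]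
        refine Finset.sum_congr rfl fun j _ => ?_
        split_ifs with hj
        · exact T_conv hζ (fun x => f (j, x)) B hB
        · exact T_conv hζ (fun x => f (j, x)) A hA
      rw [h2] at h3
      have h5 : ∑ j, (if j = i then sg ζ B * F j else sg ζ A * F j) = 
          sg ζ A * ∑ j, F j + (sg ζ B - sg ζ A) * F i := by
        have : ∀ j, (if j = i then sg ζ B * F j else sg ζ A * F j) = 
            sg ζ A * F j + (if j = i then (sg ζ B - sg ζ A) * F j else 0) := by
          intro j; split_ifs <;> ring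
        simp_rw [this]
        rw [Finset.sum_add_distrib, ← Finset.mul_sum]
        simp
      rw [h5] at h3
      linear_combination - h3
    have hS : (sg ζ B + ((k : ℚ) - 1 : ℚ) * sg ζ A - θ) * ∑ j, F j = 0 := by
      have h1 : ∑ i, (sg ζ B - sg ζ A - θ) * F i = ∑ _i : Fin k, - (sg ζ A * ∑ j, F j) :=
        Finset.sum_congr rfl fun i _ => hEq i
      rw [← Finset.mul_sum, Finset.sum_const, Finset.card_univ, Fintype.card_fin, 
        nsmul_eq_mul] at h1
      push_cast
      linear_combination h1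
    have hS0 : ∑ j, F j = 0 := by
      rcases mul_eq_zero.1 hS with h | h
      · exfalso
        refine sg_ne hζ A B ((k : ℚ) - 1) θ ?_ u w hu0 hw0 huA huB hwA hwB h
        have : (2 : ℚ) ≤ k := by exact_mod_cast hk2
        linarith
      · exact h
    have hFi : F i = 0 := by
      have h1 := hEq i
      rw [hS0, mul_zero, neg_zero] at h1
      rcases mul_eq_zero.1 h1 with h | h
      · exfalso
        refine sg_ne hζ A B (-1) θ (by norm_num) u w hu0 hw0 huA huB hwA hwB ?_
        push_cast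
        linear_combination h
      · exact h
    exact T_zero_const hζ hFi
  have hcc : ∀ i x y, c (i, x) = c (i, y) := by
    intro i x y
    by_contra hne
    set φ : Fin m → ℚ := fun t => (m : ℚ) * (if t = c (i, x) then 1 else 0) - 1 with hφ
    have h1 : ∑ t, φ t = 0 := by
      rw [hφ, Finset.sum_sub_distrib, ← Finset.mul_sum]
      simp
    have h2 := hconst φ h1 i x y
    simp [hφ, Ne.symm hne] at h2
    omega
  have hsurj : Function.Surjective (fun i : Fin k => c (i, 0)) := by
    intro t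
    obtain ⟨⟨i, x⟩, hi⟩ := hc.1 t
    exact ⟨i, by rw [← hi]; exact hcc i 0 x⟩
  have := Fintype.card_le_of_surjective _ hsurj
  simp at this
  omega

/-- the projection to the first coordinate is FAT -/
theorem fat_fst (hk : 2 ≤ k) {α : ℝ} (h0α : 0 ≤ α) (h1α : α ≤ 1) 
    (hα : (A.card : ℝ) = α * (B.card + (k - 1) * A.card)) :
    IsFAT (gr k A B hA hB h0) k α Prod.fst := by
  classical
  have hcount : ∀ (v : Fin k × ZMod p) (i : Fin k), nbrs (gr k A B hA hB h0) Prod.fst v i = 
      if i = v.1 then B.card else A.card := by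
    intro v i
    have key : ∀ S : Finset (ZMod p), (Finset.univ.filter 
        (fun w : Fin k × ZMod p => w.1 = i ∧ w.2 - v.2 ∈ S)).card = S.card := by
      intro S
      symm
      refine Finset.card_nbij' (fun s => (i, v.2 + s)) (fun w => w.2 - v.2) ?_ ?_ ?_ ?_
      · intro s hs; simpa using hs
      · intro w hw; simp at hw; simpa using hw.2
      · intro s _; simp
      · intro w hw
        simp at hw
        ext
        · simp [hw.1]
        · simp
    have hset : ∀ S : Finset (ZMod p), (∀ w : Fin k × ZMod p, 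
        ((gr k A B hA hB h0).Adj v w ∧ w.1 = i) ↔ (w.1 = i ∧ w.2 - v.2 ∈ S)) → 
        nbrs (gr k A B hA hB h0) Prod.fst v i = S.card := by
      intro S hS
      rw [nbrs, ← key S, ← Set.ncard_coe_finset]
      congr 1
      ext w
      simp only [Finset.coe_filter, Finset.mem_univ, true_and]
      exact hS w
    split_ifs with hi
    · apply hset B
      intro w
      constructor
      · rintro ⟨h | h, h'⟩
        · exact absurd (h'.trans hi).symm h.1
        · exact ⟨h', h.2⟩
      · rintro ⟨h1, h2⟩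
        exact ⟨Or.inr ⟨(h1.trans hi).symm, h2⟩, h1⟩
    · apply hset A
      intro w
      constructor
      · rintro ⟨h | h, h'⟩
        · exact ⟨h', h.2⟩
        · exact absurd (h'.symm.trans h.1.symm) hi
      · rintro ⟨h1, h2⟩
        refine ⟨Or.inl ⟨?_, h2⟩, h1⟩
        rw [h1]; exact Ne.symm hi
  have hdeg : ∀ v, (deg (gr k A B hA hB h0) v : ℝ) = B.card + (k - 1) * A.card := by
    intro v
    rw [deg_eq hA hB h0 (by omega)]
    push_cast [Nat.cast_sub (show 1 ≤ k by omega)]
    ring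
  refine ⟨fun i => ⟨(i, 0), rfl⟩, h0α, h1α, ?_, ?_⟩
  · intro v i hi
    rw [hcount, if_neg (Ne.symm hi), hdeg]
    exact hα
  · intro v
    rw [hcount, if_pos rfl, hdeg]
    linear_combination (-(k:ℝ) + 1) * hα

theorem conn (hk : 2 ≤ k) (h1A : (1 : ZMod p) ∈ A) (hp2 : p ≠ 2) :
    (gr k A B hA hB h0).Connected := by
  have hadj : ∀ (i j : Fin k) (x : ZMod p), i ≠ j → (gr k A B hA hB h0).Adj (i, x) (j, x + 1) := by
    intro i j x hij
    exact Or.inl ⟨hij, by simpa using h1A⟩
  have hex : ∀ i : Fin k, ∃ j, j ≠ i := by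
    intro i
    have : Nontrivial (Fin k) := Fin.nontrivial_iff_two_le.2 hk
    exact exists_ne _
  have h2 : ∀ (i : Fin k) (x : ZMod p) (t : ℕ), 
      (gr k A B hA hB h0).Reachable (i, x) (i, x + 2 * t) := by
    intro i x t
    induction t with
    | zero => simp
    | succ t ih =>
      obtain ⟨j, hj⟩ := hex i
      refine ih.trans ?_
      have e1 := (hadj i j (x + 2 * t) (Ne.symm hj)).reachable
      have e2 := (hadj j i (x + 2 * t + 1) hj).reachable
      have : x + 2 * ((t + 1 : ℕ) : ZMod p) = x + 2 * t + 1 + 1 := by push_cast; ring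
      rw [this]
      exact e1.trans e2
  have h3 : ∀ (i : Fin k) (x y : ZMod p), (gr k A B hA hB h0).Reachable (i, x) (i, y) := by
    intro i x y
    have h2ne : (2 : ZMod p) ≠ 0 := by
      intro h
      have : ((2 : ℕ) : ZMod p) = 0 := by exact_mod_cast h
      rw [ZMod.natCast_eq_zero_iff] at this
      exact hp2 ((Nat.prime_dvd_prime_iff_eq Fact.out Nat.prime_two).1 this)
    have := h2 i x ((y - x) / 2).val
    rw [ZMod.natCast_zmod_val, mul_div_cancel₀ _ h2ne] at this
    simpa using this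
  have h4 : ∀ (i j : Fin k) (x y : ZMod p), (gr k A B hA hB h0).Reachable (i, x) (j, y) := by
    intro i j x y
    by_cases hij : i = j
    · subst hij; exact h3 i x y
    · exact (hadj i j x hij).reachable.trans (h3 j _ y)
  have : Nonempty (Fin k × ZMod p) := ⟨(⟨0, by omega⟩, 0)⟩
  exact ⟨fun u v => h4 u.1 v.1 u.2 v.2⟩

end main

/-- the symmetric interval `{±m : l < m ≤ l + n}` -/
def symI (p l n : ℕ) : Finset (ZMod p) :=
  (Finset.Ioc l (l + n)).image (fun m => ((m : ℕ) : ZMod p)) ∪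
    (Finset.Ioc l (l + n)).image (fun m => -((m : ℕ) : ZMod p))

theorem mem_symI {p l n : ℕ} {x : ZMod p} : x ∈ symI p l n ↔ 
    ∃ m, l < m ∧ m ≤ l + n ∧ (x = m ∨ x = -(m : ZMod p)) := by
  simp only [symI, Finset.mem_union, Finset.mem_image, Finset.mem_Ioc]
  constructor
  · rintro (⟨m, ⟨h1, h2⟩, rfl⟩ | ⟨m, ⟨h1, h2⟩, rfl⟩)
    · exact ⟨m, h1, h2, Or.inl rfl⟩
    · exact ⟨m, h1, h2, Or.inr rfl⟩
  · rintro ⟨m, h1, h2, rfl | rfl⟩
    · exact Or.inl ⟨m, ⟨h1, h2⟩, rfl⟩
    · exact Or.inr ⟨m, ⟨h1, h2⟩, rfl⟩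

theorem symI_neg {p l n : ℕ} : ∀ x ∈ symI p l n, -x ∈ symI p l n := by
  intro x hx
  rw [mem_symI] at hx ⊢
  obtain ⟨m, h1, h2, rfl | rfl⟩ := hx
  · exact ⟨m, h1, h2, Or.inr rfl⟩
  · exact ⟨m, h1, h2, Or.inl (neg_neg _)⟩

theorem cast_inj' {p a b : ℕ} (ha : a < p) (hb : b < p) (h : (a : ZMod p) = b) : a = b := by
  have := (ZMod.natCast_eq_natCast_iff' a b p).1 h
  rwa [Nat.mod_eq_of_lt ha, Nat.mod_eq_of_lt hb] at this

theorem cast_ne_neg {p a b : ℕ} (h0 : 0 < a + b) (h : a + b < p) : (a : ZMod p) ≠ -(b : ZMod p) := by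
  intro he
  have : ((a + b : ℕ) : ZMod p) = 0 := by
    push_cast; rw [he]; ring
  rw [ZMod.natCast_eq_zero_iff] at this
  exact absurd (Nat.le_of_dvd h0 this) (by omega)

theorem card_symI {p l n : ℕ} (hp : 2 * (l + n) < p) : (symI p l n).card = 2 * n := by
  rw [symI, Finset.card_union_of_disjoint, Finset.card_image_of_injOn, Finset.card_image_of_injOn]
  · simp; ring
  · intro a ha b hb hab
    simp at ha hb hab
    exact cast_inj' (by omega) (by omega) hab
  · intro a ha b hb hab
    simp at ha hb hab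
    exact cast_inj' (by omega) (by omega) hab
  · rw [Finset.disjoint_left]
    intro x hx hx'
    simp at hx hx'
    obtain ⟨a, ha, rfl⟩ := hx
    obtain ⟨b, hb, hab⟩ := hx'
    exact cast_ne_neg (by omega) (by omega) hab.symm

theorem not_mem_symI {p l n m : ℕ} (hm : m ≤ l ∨ l + n < m) (h : m + (l + n) < p) :
    ((m : ℕ) : ZMod p) ∉ symI p l n := by
  intro hx
  rw [mem_symI] at hx
  obtain ⟨j, h1, h2, h3 | h3⟩ := hx
  · have := cast_inj' (by omega) (by omega) h3
    omega
  · exact cast_ne_neg (by omega) (by omega) h3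

/-- Every rational `α` with `0 < α ≤ 1/(k-1)` is the parameter of a FAT `k`-colouring of some
finite connected graph whose FAT chromatic number is exactly `k`. -/
theorem result : ∀ k : ℕ, 2 ≤ k → ∀ α : ℚ, 0 < α → α ≤ 1 / ((k : ℚ) - 1) →
    ∃ (V : Type) (_ : Fintype V) (G : SimpleGraph V), 2 ≤ Fintype.card V ∧ G.Connected ∧
      FATChromaticNumberEq G k ∧ ∃ c : V → Fin k, IsFAT G k (α : ℝ) c := by
  intro k hk α hα0 hα1
  have hk1 : (0 : ℚ) < (k : ℚ) - 1 := by
    have : (2 : ℚ) ≤ k := by exact_mod_cast hk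
    linarith
  obtain ⟨r, hr⟩ : ∃ r : ℕ, α.num = r := ⟨α.num.toNat, by
    rw [Int.toNat_of_nonneg (Rat.num_pos.2 hα0).le]⟩
  have hr0 : 0 < r := by
    have := Rat.num_pos.2 hα0
    omega
  set s := α.den with hs
  have hs0 : 0 < s := α.den_pos
  have hαrs : α = r / s := by
    rw [← Rat.num_div_den α, hr]; simp [hs]
  have hle : (k - 1) * r ≤ s := by
    have h1 : (r : ℚ) / s * (k - 1) ≤ 1 := by
      rw [← hαrs]
      calc α * ((k : ℚ) - 1) ≤ 1 / ((k : ℚ) - 1) * ((k : ℚ) - 1) := 
            mul_le_mul_of_nonneg_right hα1 hk1.le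
        _ = 1 := by field_simp
    have h2 : (r : ℚ) * (k - 1) ≤ s := by
      have hs' : (0 : ℚ) < s := by exact_mod_cast hs0
      rw [div_mul_eq_mul_div, div_le_one hs'] at h1
      exact h1
    have h3 : (((k - 1) * r : ℕ) : ℚ) ≤ s := by
      push_cast [Nat.cast_sub (show 1 ≤ k by omega)]
      linarith
    exact_mod_cast h3
  obtain ⟨t, ht⟩ := Nat.exists_eq_add_of_le hle
  obtain ⟨p, hp1, hp2⟩ := Nat.exists_infinite_primes (4 * (r + t) + 5)
  have : Fact p.Prime := ⟨hp2⟩
  set A := symI p 0 r with hA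
  set B := symI p r t with hB
  have hAc : A.card = 2 * r := card_symI (by omega)
  have hBc : B.card = 2 * t := card_symI (by omega)
  have h0B : (0 : ZMod p) ∉ B := by
    have := not_mem_symI (p := p) (l := r) (n := t) (m := 0) (Or.inl (by omega)) (by omega)
    simpa using this
  have hζ : IsPrimitiveRoot (Complex.exp (2 * Real.pi * Complex.I / p)) p :=
    Complex.isPrimitiveRoot_exp p hp2.ne_zero
  have h1A : (1 : ZMod p) ∈ A := by
    rw [hA, mem_symI]
    exact ⟨1, by omega, by omega, Or.inl (by simp)⟩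
  have hαR : (A.card : ℝ) = (α : ℝ) * (B.card + (k - 1) * A.card) := by
    rw [hAc, hBc, hαrs]
    have hsR : (s : ℝ) = (k - 1) * r + t := by
      have : (s : ℝ) = (((k - 1) * r + t : ℕ) : ℝ) := by exact_mod_cast ht
      rw [this]
      push_cast [Nat.cast_sub (show 1 ≤ k by omega)]
      ring
    have hs' : (s : ℝ) ≠ 0 := by exact_mod_cast hs0.ne'
    push_cast
    rw [div_mul_eq_mul_div, eq_div_iff hs', hsR]
    ring
  have hα1' : (α : ℝ) ≤ 1 := by
    have h1 : α ≤ 1 := by
      refine hα1.trans ?_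
      rw [div_le_one hk1]
      have : (2 : ℚ) ≤ k := by exact_mod_cast hk
      linarith
    exact_mod_cast h1
  have hfat : IsFAT (gr k A B symI_neg symI_neg h0B) k (α : ℝ) Prod.fst :=
    fat_fst symI_neg symI_neg h0B hk (by exact_mod_cast hα0.le) hα1' hαR
  refine ⟨Fin k × ZMod p, inferInstance, gr k A B symI_neg symI_neg h0B, ?_, 
    conn symI_neg symI_neg h0B hk h1A (by omega), ⟨⟨α, Prod.fst, hfat⟩, ?_⟩, Prod.fst, hfat⟩
  · rw [Fintype.card_prod, Fintype.card_fin, ZMod.card]
    calc 2 ≤ k := hk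
      _ = k * 1 := (mul_one _).symm
      _ ≤ k * p := Nat.mul_le_mul_left _ hp2.one_lt.le
  · rintro m ⟨α', c, hc⟩
    refine upper symI_neg symI_neg h0B (by omega) hζ 1 ((r + t + 1 : ℕ) : ZMod p) ?_ ?_ h1A ?_ ?_ ?_
      hk hc
    · have : Fact (1 < p) := ⟨hp2.one_lt⟩
      exact one_ne_zero
    · intro h
      rw [ZMod.natCast_eq_zero_iff] at h
      exact absurd (Nat.le_of_dvd (by omega) h) (by omega)
    · have := not_mem_symI (p := p) (l := r) (n := t) (m := 1) (Or.inl (by omega)) (by omega)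
      simpa using this
    · exact not_mem_symI (Or.inr (by omega)) (by omega)
    · exact not_mem_symI (Or.inr (by omega)) (by omega)

end Pool.Agent.Results.MP_2d49c6_co.FATPrescribed
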